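import Mathlib
import Pool.Agent.Q197.PolyShift
import Pool.Agent.Q197.SepInv

/-!
# MP_550623_an: dense range and dense generalized kernel do not make `I + T` hypercyclic

Over the real and over the complex field there is a separable Banach space with a bounded operator
`T` of dense range and dense generalized kernel such that `I + T` is not hypercyclic (hence not
mixing).  This answers Q1 and Q2 in the negative.
-/

set_option autoImplicit false

namespace Pool.Agent.Results.MP_550623_an.NotHypercyclic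

open Filter Topology Q197.PolyShift

/-- `S` is hypercyclic: some vector has a dense orbit `{S^n x : n >= 0}`. -/
def Hypercyclic {𝕜 X : Type} [RCLike 𝕜] [NormedAddCommGroup X] [NormedSpace 𝕜 X]
    (S : X →L[𝕜] X) : Prop :=
  ∃ x : X, Dense (Set.range fun n : ℕ => (S ^ n) x)

/-- `S` is topologically mixing. -/
def Mixing {𝕜 X : Type} [RCLike 𝕜] [NormedAddCommGroup X] [NormedSpace 𝕜 X]
    (S : X →L[𝕜] X) : Prop :=
  ∀ U V : Set X, IsOpen U → IsOpen V → U.Nonempty → V.Nonempty →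
    ∃ N : ℕ, ∀ n : ℕ, N ≤ n → ((fun x => (S ^ n) x) '' U ∩ V).Nonempty

/-- `T` has dense range and dense generalized kernel, and there are nonempty open sets `U`, `V`
that no positive power of `I + T` connects, so `I + T` is neither hypercyclic nor mixing. -/
def Bad {𝕜 X : Type} [RCLike 𝕜] [NormedAddCommGroup X] [NormedSpace 𝕜 X]
    (T : X →L[𝕜] X) : Prop :=
  Dense (Set.range T) ∧ Dense (⋃ n : ℕ, {x : X | (T ^ n) x = 0}) ∧
    (∃ U V : Set X, IsOpen U ∧ IsOpen V ∧ U.Nonempty ∧ V.Nonempty ∧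
      ∀ n : ℕ, 1 ≤ n → (fun x => ((1 + T) ^ n) x) '' U ∩ V = ∅) ∧
    ¬ Hypercyclic (1 + T) ∧ ¬ Mixing (1 + T)

section general

variable {𝕜 X : Type} [RCLike 𝕜] [NormedAddCommGroup X] [NormedSpace 𝕜 X] [Nontrivial X]

/-- If every positive power of `S` maps a ball around some point outside a fixed ball around the
origin, then `S` is not hypercyclic. -/
lemma not_hypercyclic (S : X →L[𝕜] X) (u : X) (r : ℝ) (hr : 0 < r)
    (h : ∀ x : X, ‖x - u‖ < r → ∀ n : ℕ, 1 ≤ n → r ≤ ‖(S ^ n) x‖) : ¬ Hypercyclic S := by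
  rintro ⟨x, hx⟩
  obtain ⟨_, hm, ⟨m, rfl⟩⟩ := Metric.dense_iff.1 hx u r hr
  rw [Metric.mem_ball, dist_eq_norm] at hm
  -- the open ball minus the finitely many points of the initial orbit segment
  let F : Set X := (fun n : ℕ => (S ^ n) x) '' (Set.Iic m)
  have hF : F.Finite := (Set.finite_Iic m).image _
  have hopen : IsOpen (Metric.ball (0 : X) r \ F) := Metric.isOpen_ball.sdiff hF.isClosed
  have hne : (Metric.ball (0 : X) r \ F).Nonempty := by
    have hinf : (Metric.ball (0 : X) r).Infinite := by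
      have : (𝓝[≠] (0 : X)).NeBot := Module.punctured_nhds_neBot 𝕜 X 0
      exact infinite_of_mem_nhds (0 : X) (Metric.ball_mem_nhds _ hr)
    exact (hinf.sdiff hF).nonempty
  obtain ⟨_, hy, n, rfl⟩ := hx.inter_open_nonempty _ hopen hne
  have hn : m < n := by
    by_contra hcon
    exact hy.2 ⟨n, by simpa using hcon, rfl⟩
  obtain ⟨k, rfl⟩ := Nat.exists_eq_add_of_lt hn
  have h1 := h _ hm (k + 1) (by omega)
  have h2 : (S ^ (k + 1)) ((S ^ m) x) = (S ^ (m + k + 1)) x := by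
    rw [← mul_apply_eq_comp, ← pow_add]
    congr 2
    omega
  rw [h2] at h1
  have h3 := hy.1
  rw [Metric.mem_ball, dist_zero_right] at h3
  exact absurd h1 (not_le.2 h3)

omit [Nontrivial X] in
lemma not_mixing (S : X →L[𝕜] X) (u : X) (r : ℝ) (hr : 0 < r)
    (h : ∀ x : X, ‖x - u‖ < r → ∀ n : ℕ, 1 ≤ n → r ≤ ‖(S ^ n) x‖) : ¬ Mixing S := by
  intro hS
  obtain ⟨N, hN⟩ := hS (Metric.ball u r) (Metric.ball 0 r) Metric.isOpen_ball Metric.isOpen_ball
    ⟨u, Metric.mem_ball_self hr⟩ ⟨0, Metric.mem_ball_self hr⟩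
  obtain ⟨_, ⟨x, hx, rfl⟩, hy⟩ := hN (N + 1) (by omega)
  rw [Metric.mem_ball, dist_eq_norm] at hx
  rw [Metric.mem_ball, dist_zero_right] at hy
  exact absurd (h x hx (N + 1) (by omega)) (not_le.2 hy)

omit [Nontrivial X] in
lemma exists_open (S : X →L[𝕜] X) (u : X) (r : ℝ) (hr : 0 < r)
    (h : ∀ x : X, ‖x - u‖ < r → ∀ n : ℕ, 1 ≤ n → r ≤ ‖(S ^ n) x‖) :
    ∃ U V : Set X, IsOpen U ∧ IsOpen V ∧ U.Nonempty ∧ V.Nonempty ∧
      ∀ n : ℕ, 1 ≤ n → (fun x => (S ^ n) x) '' U ∩ V = ∅ := by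
  refine ⟨Metric.ball u r, Metric.ball 0 r, Metric.isOpen_ball, Metric.isOpen_ball,
    ⟨u, Metric.mem_ball_self hr⟩, ⟨0, Metric.mem_ball_self hr⟩, fun n hn => ?_⟩
  rw [Set.eq_empty_iff_forall_notMem]
  rintro _ ⟨⟨x, hx, rfl⟩, hy⟩
  rw [Metric.mem_ball, dist_eq_norm] at hx
  rw [Metric.mem_ball, dist_zero_right] at hy
  exact absurd (h x hx n hn) (not_le.2 hy)

end general

/-- The counterexample over an arbitrary `RCLike` field. -/
theorem main (𝕜 : Type) [RCLike 𝕜] :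
    ∃ (X : Type) (_ : NormedAddCommGroup X) (_ : NormedSpace 𝕜 X) (_ : CompleteSpace X)
      (_ : TopologicalSpace.SeparableSpace X) (_ : Nontrivial X) (T : X →L[𝕜] X), Bad T := by
  -- the constant array
  have hone : ∀ N i : ℕ, ‖(1 : 𝕜)‖ ≤ (1 : ℝ) * 4 ^ (ex N i) := by
    intro N i
    rw [norm_one, one_mul]
    exact one_le_pow₀ (by norm_num)
  let u : E 𝕜 := mk (fun _ _ => 1) 1 hone
  have hDu : ∀ N i, D u N i = 1 := fun N i => D_mk _ _ _ _ _
  let W : Set (E 𝕜) := {x | ∃ n : ℕ, ((T 𝕜) ^ n) x = 0}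
  have huW : u ∈ W := by
    refine ⟨1, ?_⟩
    rw [T_pow_eq_zero_iff]
    intro N
    ext i
    simp [fwdDiff, hDu]
  obtain ⟨X, hXc, hXs, huX, hTX, hdr, hdk⟩ := Q197.SepInv.exists_sep (T 𝕜) W
    (by
      rintro v ⟨n, hn⟩
      refine ⟨n, ?_⟩
      rw [← mul_apply_eq_comp, ← pow_succ, pow_succ', mul_apply_eq_comp, hn, map_zero])
    (by
      rintro v ⟨n, hn⟩ ε hε
      obtain ⟨z, hz, hz'⟩ := approx v n hn ε hε
      exact ⟨z, hz, hz'⟩)
    (fun v hv => hv) u huW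
  have : CompleteSpace X := hXc.completeSpace_coe
  have hu0 : u ≠ 0 := by
    intro h
    have h1 := hDu 0 0
    rw [h, D_zero] at h1
    exact zero_ne_one h1
  have : Nontrivial X := ⟨⟨⟨u, huX⟩, 0, fun h => hu0 (congrArg Subtype.val h)⟩⟩
  let TX : X →L[𝕜] X := ((T 𝕜).comp X.subtypeL).codRestrict X (fun x => hTX x.1 x.2)
  have hTX1 : ∀ x : X, ((TX x : X) : E 𝕜) = T 𝕜 (x : E 𝕜) := fun x => rfl
  have hTXn : ∀ (n : ℕ) (x : X), (((TX ^ n) x : X) : E 𝕜) = ((T 𝕜) ^ n) (x : E 𝕜) := by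
    intro n
    induction n with
    | zero => intro x; simp
    | succ n ih =>
      intro x
      rw [pow_succ, mul_apply_eq_comp, ih, hTX1, pow_succ, mul_apply_eq_comp]
  have hS1 : ∀ x : X, (((1 + TX) x : X) : E 𝕜) = S 𝕜 (x : E 𝕜) := by
    intro x
    change (x : E 𝕜) + (S 𝕜 (x : E 𝕜) - (x : E 𝕜)) = _
    abel
  have hSn : ∀ (n : ℕ) (x : X), ((((1 + TX) ^ n) x : X) : E 𝕜) = ((S 𝕜) ^ n) (x : E 𝕜) := by
    intro n
    induction n with
    | zero => intro x; simp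
    | succ n ih =>
      intro x
      rw [pow_succ, mul_apply_eq_comp, ih, hS1, pow_succ, mul_apply_eq_comp]
  -- the key estimate
  have key : ∀ x : X, ‖x - (⟨u, huX⟩ : X)‖ < 1 / 2 → ∀ n : ℕ, 1 ≤ n →
      (1 / 2 : ℝ) ≤ ‖((1 + TX) ^ n) x‖ := by
    intro x hx n hn
    have hx' : ‖(x : E 𝕜) - u‖ < 1 / 2 := hx
    have h1 : ‖((S 𝕜) ^ n) (x : E 𝕜)‖ = ‖((1 + TX) ^ n) x‖ := by
      rw [← hSn]; rfl
    rw [← h1]
    have h2 := norm_D_le (((S 𝕜) ^ n) (x : E 𝕜)) n 0
    rw [D_S_pow, ex_of_lt (by omega : 0 < n), pow_zero, mul_one, zero_add] at h2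
    have h3 := norm_D_le ((x : E 𝕜) - u) n n
    have hex : ex n n = 0 := by have := ex_add n 0; simpa using this
    rw [D_sub, hDu, hex, pow_zero, mul_one] at h3
    have h4 : ‖(1 : 𝕜)‖ ≤ ‖D (x : E 𝕜) n n‖ + ‖D (x : E 𝕜) n n - 1‖ := by
      have := norm_sub_le (D (x : E 𝕜) n n) (D (x : E 𝕜) n n - 1)
      simpa using this
    rw [norm_one] at h4
    linarith
  refine ⟨X, inferInstance, inferInstance, inferInstance, hXs, inferInstance, TX, ?_, ?_,
    exists_open _ _ _ (by norm_num) key, not_hypercyclic _ _ _ (by norm_num) key,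
    not_mixing _ _ _ (by norm_num) key⟩
  · rw [Metric.dense_iff]
    intro x ε hε
    obtain ⟨w, hw, hd⟩ := hdr x.1 x.2 ε hε
    refine ⟨TX ⟨w, hw⟩, ?_, ⟨⟨w, hw⟩, rfl⟩⟩
    rw [Metric.mem_ball, dist_eq_norm]
    exact hd
  · rw [Metric.dense_iff]
    intro x ε hε
    obtain ⟨w, hw, ⟨n, hn⟩, hd⟩ := hdk x.1 x.2 ε hε
    refine ⟨⟨w, hw⟩, ?_, ?_⟩
    · rw [Metric.mem_ball, dist_eq_norm]
      exact hd
    · rw [Set.mem_iUnion]
      refine ⟨n, ?_⟩
      apply Subtype.ext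
      rw [hTXn, hn]
      rfl

/-- Over the reals and over the complex numbers there is a nonzero separable Banach space `X` and a
bounded operator `T` on `X` with dense range and dense generalized kernel such that `I + T` is not
hypercyclic and not mixing; in fact two nonempty open sets are not connected by any positive power
of `I + T`. -/
theorem result :
    (∃ (X : Type) (_ : NormedAddCommGroup X) (_ : NormedSpace ℝ X) (_ : CompleteSpace X)
      (_ : TopologicalSpace.SeparableSpace X) (_ : Nontrivial X) (T : X →L[ℝ] X), Bad T) ∧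
    (∃ (X : Type) (_ : NormedAddCommGroup X) (_ : NormedSpace ℂ X) (_ : CompleteSpace X)
      (_ : TopologicalSpace.SeparableSpace X) (_ : Nontrivial X) (T : X →L[ℂ] X), Bad T) :=
  ⟨main ℝ, main ℂ⟩

end Pool.Agent.Results.MP_550623_an.NotHypercyclic
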